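import Pool.Agent.Helper72.SLCProof

/-!
# Form without hypotheses: an example refutes `MA_{ℵ₁}` + Measuring
-/

set_option autoImplicit false

namespace Pool.Agent.Results.MP_5a4599_gt.ExampleRefutesMA

open Cardinal Pool.Agent.Helper72.SLC

theorem result (X : Type) [TopologicalSpace X] [RegularSpace X] [T1Space X] (hX : #X = ℵ₁)
    (hB : HasSigmaLocallyCountableBase X) (h : ¬ ClosedSetsGdelta X ∨ ¬ Metacompact X) :
    ¬ (MartinAxiomAleph1 ∧ Measuring) := by
  rintro ⟨hMA, hM⟩
  rcases h with h | h
  · exact h fun F _ => perfect_main hMA hM hX.le hB F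
  · exact h (metacompact_main hMA hM hX.le hB)

end Pool.Agent.Results.MP_5a4599_gt.ExampleRefutesMA
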