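import Pool.Agent.Helper185.Loc4

namespace Pool.Agent.Results.MP_5a4599_gt.NoExampleInZFC

open Pool.Agent.Helper185.Loc

/-- The existence of a regular `T₁` space of cardinality `ℵ₁` with a `σ`-locally countable base
that is not perfect, or not metacompact, refutes the conjunction of `MA_{ω₁}` and the forcing
axiom for Baumgartner's club poset. -/
theorem result :
    ((∃ (X : Type) (_ : TopologicalSpace X), RegularSpace X ∧ T1Space X ∧
        Cardinal.mk X = Cardinal.aleph 1 ∧ SigmaLocCountableBase X ∧ ¬ ClosedGdelta X) →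
      ¬ (MartinAxiom ∧ ClubAxiom)) ∧
    ((∃ (X : Type) (_ : TopologicalSpace X), RegularSpace X ∧ T1Space X ∧
        Cardinal.mk X = Cardinal.aleph 1 ∧ SigmaLocCountableBase X ∧ ¬ Metacompact X) →
      ¬ (MartinAxiom ∧ ClubAxiom)) := by
  constructor
  · rintro ⟨X, _, _, _, hX, hB, hn⟩ ⟨hMA, hCA⟩
    exact hn (perfect_and_metacompact hMA hCA hX hB).1
  · rintro ⟨X, _, _, _, hX, hB, hn⟩ ⟨hMA, hCA⟩
    exact hn (perfect_and_metacompact hMA hCA hX hB).2

end Pool.Agent.Results.MP_5a4599_gt.NoExampleInZFC
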