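import Pool.Agent.Helper72.SLCProof

/-!
# Q1: under `MA_{ℵ₁}` and Measuring there is no non-perfect example
-/

set_option autoImplicit false

namespace Pool.Agent.Results.MP_5a4599_gt.NoExamplePerfect

open Cardinal Pool.Agent.Helper72.SLC

theorem result (hMA : MartinAxiomAleph1) (hM : Measuring) (X : Type) [TopologicalSpace X]
    [T1Space X] (hX : #X ≤ ℵ₁) (hB : HasSigmaLocallyCountableBase X) : ClosedSetsGdelta X :=
  fun F _ => perfect_main hMA hM hX hB F

end Pool.Agent.Results.MP_5a4599_gt.NoExamplePerfect
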