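import Pool.Agent.Helper185.Loc4

namespace Pool.Agent.Results.MP_5a4599_gt.PerfectAndMetacompact

open Pool.Agent.Helper185.Loc

/-- `MA_{ω₁}` together with the forcing axiom for Baumgartner's club poset implies that every
`T₁` space of cardinality `ℵ₁` with a `σ`-locally countable base is perfect and metacompact. -/
theorem result (hMA : MartinAxiom) (hCA : ClubAxiom) :
    ∀ (X : Type) [TopologicalSpace X] [T1Space X],
      Cardinal.mk X = Cardinal.aleph 1 → SigmaLocCountableBase X →
      ClosedGdelta X ∧ Metacompact X := by
  intro X _ _ hX hB
  exact perfect_and_metacompact hMA hCA hX hB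

end Pool.Agent.Results.MP_5a4599_gt.PerfectAndMetacompact
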